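import Mathlib
import Pool.Agent.U29.DZ.Stm

/-!
Project DZ, package ANAx: exponential decay of the survival probability (position dependent weights).
-/

set_option autoImplicit false

namespace Pool.Agent.U851.DZ

open Finset MeasureTheory Filter Pool.Agent.U762.RP Pool.Agent.U29.DZ

section
variable {d : ℕ} {m r : ℤ → ℤ} {w : ℤ → ℤ → ℝ} {B : ℕ} {M Y : ℝ}

theorem Q_mono (hw : ∀ x u, 0 ≤ w x u) {F G : ℤ → ℝ} (h : ∀ x, F x ≤ G x) (x : ℤ) :
    Qx d m r w B M Y F x ≤ Qx d m r w B M Y G x := by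
  unfold Qx
  split_ifs
  · exact Finset.sum_le_sum fun u _ => mul_le_mul_of_nonneg_left (h _) (hw x u)
  · exact le_rfl

theorem Q_smul (c : ℝ) (F : ℤ → ℝ) (x : ℤ) :
    Qx d m r w B M Y (fun y => c * F y) x = c * Qx d m r w B M Y F x := by
  unfold Qx
  split_ifs
  · rw [Finset.mul_sum]
    exact Finset.sum_congr rfl fun u _ => by ring
  · rw [mul_zero]

theorem Qi_mono (hw : ∀ x u, 0 ≤ w x u) (k : ℕ) : ∀ {F G : ℤ → ℝ}, (∀ x, F x ≤ G x) → ∀ x : ℤ,
    (Qx d m r w B M Y)^[k] F x ≤ (Qx d m r w B M Y)^[k] G x := by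
  induction k with
  | zero => exact fun h x => h x
  | succ k ih =>
    intro F G h x
    rw [Function.iterate_succ_apply, Function.iterate_succ_apply]
    exact ih (fun y => Q_mono hw h y) x

theorem Qi_smul (c : ℝ) (k : ℕ) : ∀ (F : ℤ → ℝ) (x : ℤ),
    (Qx d m r w B M Y)^[k] (fun y => c * F y) x = c * (Qx d m r w B M Y)^[k] F x := by
  induction k with
  | zero => exact fun F x => rfl
  | succ k ih =>
    intro F x
    rw [Function.iterate_succ_apply, Function.iterate_succ_apply]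
    have e : Qx d m r w B M Y (fun y => c * F y) = fun y => c * Qx d m r w B M Y F y :=
      funext fun y => Q_smul c F y
    rw [e]
    exact ih _ x

theorem Qi_zero (θ : ℝ) (s : ℕ) (x : ℤ) (hx : |(x : ℝ)| < M) :
    (Qx d m r w B M Y)^[s] (V M θ) x = 0 := by
  cases s with
  | zero => simp [V, hx]
  | succ s =>
    rw [Function.iterate_succ_apply']
    unfold Qx
    rw [if_neg]
    intro h
    exact absurd h.1 (not_le.2 hx)

end

theorem g_nonneg {ε R ρ : ℝ} (hε : 0 < ε) (hε1 : ε < 1) (hR : 0 < R) (hρ : 0 ≤ ρ) (k : ℕ) :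
    0 ≤ g ε R ρ k := by
  induction k with
  | zero => exact zero_le_one
  | succ k ih =>
    show 0 ≤ R * (ε * ρ ^ k + (1 - ε) * g ε R ρ k)
    have h1 : 0 ≤ 1 - ε := by linarith
    positivity

theorem t_ANAx : S_EXP → S_REC → S_WCx → S_ANAx := by
  intro hEXP hREC hWC d m r hrel hprod ε hε hε1
  obtain ⟨θ, ζ, hθ0, hθ1, hζ, hsum, hfac⟩ := hEXP d m hrel.two_le hrel.pos hprod ε hε hε1
  have hd : 0 < d := by have := hrel.two_le; omega
  have hd' : (0 : ℝ) < d := by exact_mod_cast hd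
  have hfpos : ∀ j ∈ range d, 0 < fac d m ζ j := by
    intro j hj
    unfold fac
    have h1 : 0 < m (j : ℤ) := hrel.pos j (by positivity) (by exact_mod_cast mem_range.1 hj)
    have h2 : (0 : ℝ) < m (j : ℤ) := by exact_mod_cast h1
    positivity
  obtain ⟨j0, hj0, hmax⟩ := Finset.exists_max_image (range d) (fun j => fac d m ζ j ^ θ)
    ⟨0, mem_range.2 hd⟩
  set R : ℝ := max 1 (fac d m ζ j0 ^ θ) with hR
  have hRone : 1 ≤ R := le_max_left _ _
  have hRpos : 0 < R := by linarith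
  have hR1 : (1 - ε) * R < 1 := by
    have h1 : 0 < 1 - ε := by linarith
    rw [hR]
    rcases max_cases (1 : ℝ) (fac d m ζ j0 ^ θ) with ⟨h, -⟩ | ⟨h, -⟩
    · rw [h]; linarith
    · rw [h]; exact hfac j0 hj0
  set ρ : ℝ := (∑ j ∈ range d, fac d m ζ j ^ θ) / d with hρ
  have hρ0 : 0 ≤ ρ := div_nonneg (Finset.sum_nonneg fun j hj =>
    (Real.rpow_pos_of_pos (hfpos j hj) θ).le) hd'.le
  have hρ1 : ρ < 1 := by rw [hρ, div_lt_one hd']; exact hsum
  have hg0 := g_nonneg hε hε1 hRpos hρ0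
  have hlim := hREC ε R ρ hε hε1 hRpos hρ0 hρ1 hR1
  have hev : ∀ᶠ k in atTop, g ε R ρ k ≤ 1 / 4 :=
    (hlim.eventually (gt_mem_nhds (by norm_num : (0 : ℝ) < 1 / 4))).mono fun _ h => h.le
  obtain ⟨K, hK, hK1⟩ := (hev.and (eventually_ge_atTop 1)).exists
  have hKpos : (0 : ℝ) < K := by exact_mod_cast hK1
  set η : ℝ := 1 / (4 * (K : ℝ) ^ 2 * R ^ K) with hη
  have hη0 : 0 < η := by positivity
  have hηK : η * (K : ℝ) ^ 2 * R ^ K = 1 / 4 := by
    rw [hη]; field_simp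
  refine ⟨K, η, hη0, fun B hB => ?_⟩
  obtain ⟨M₀, hM1, hM⟩ := hWC d m r hrel θ ζ hθ0 hθ1 hζ B
  set C0 : ℝ := 1 + ∑ s ∈ range (K + 1), (g ε R ρ s + η * (s : ℝ) ^ 2 * R ^ s) with hC0
  have hterm : ∀ s : ℕ, 0 ≤ g ε R ρ s + η * (s : ℝ) ^ 2 * R ^ s := by
    intro s
    have := hg0 s
    positivity
  have hC0pos : 0 < C0 := by
    have : 0 ≤ ∑ s ∈ range (K + 1), (g ε R ρ s + η * (s : ℝ) ^ 2 * R ^ s) :=
      Finset.sum_nonneg fun s _ => hterm s
    linarith
  have hC0g : ∀ s, s < K + 1 → g ε R ρ s + η * (s : ℝ) ^ 2 * R ^ s ≤ C0 := by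
    intro s hs
    have := Finset.single_le_sum (f := fun s : ℕ => g ε R ρ s + η * (s : ℝ) ^ 2 * R ^ s)
      (fun s _ => hterm s) (mem_range.2 hs)
    linarith
  set lam : ℝ := (1 / 2 : ℝ) ^ ((1 : ℝ) / K) with hlam
  have hlam0 : 0 < lam := Real.rpow_pos_of_pos (by norm_num) _
  have hlam1 : lam < 1 := Real.rpow_lt_one (by norm_num) (by norm_num) (by positivity)
  have hlamK : lam ^ K = 1 / 2 := by
    rw [hlam, ← Real.rpow_natCast, ← Real.rpow_mul (by norm_num), one_div_mul_cancel hKpos.ne',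
      Real.rpow_one]
  refine ⟨M₀, 2 * C0, lam, θ, hM1, by positivity, hlam0, hlam1, hθ0, hθ1,
    fun M hMM Y w hw hmass L x => ?_⟩
  have hw0 := hw.nonneg
  have hwc := hM M hMM Y η R ε K w hη0.le hw hRone hε hε1 hB
    (fun j hj => (hmax j hj).trans (le_max_right _ _)) hmass
  have hVn : ∀ y : ℤ, 0 ≤ V M θ y := by
    intro y
    unfold V
    split_ifs
    · exact le_rfl
    · exact Real.rpow_nonneg (abs_nonneg _) _
  -- one step
  have hstep : ∀ s : ℕ, s < K + 1 → ∀ y, (Qx d m r w B M Y)^[s] (V M θ) y ≤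
      (g ε R ρ s + η * (s : ℝ) ^ 2 * R ^ s) * V M θ y := by
    intro s hs y
    by_cases hy : |(y : ℝ)| < M
    · rw [Qi_zero θ s y hy]
      exact mul_nonneg (hterm s) (hVn y)
    · have h1 := hwc s (by omega) y
      have h2 : V M θ y = |(y : ℝ)| ^ θ := by unfold V; rw [if_neg hy]
      rw [h2]
      exact h1
  -- one block
  have hblock : ∀ y, (Qx d m r w B M Y)^[K] (V M θ) y ≤ 1 / 2 * V M θ y := by
    intro y
    refine (hstep K (by omega) y).trans ?_
    refine mul_le_mul_of_nonneg_right ?_ (hVn y)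
    rw [hηK]
    linarith
  have hblocks : ∀ n : ℕ, ∀ y, (Qx d m r w B M Y)^[K * n] (V M θ) y ≤ (1 / 2) ^ n * V M θ y := by
    intro n
    induction n with
    | zero => intro y; simp
    | succ n ih =>
      intro y
      rw [Nat.mul_succ, Function.iterate_add_apply]
      calc (Qx d m r w B M Y)^[K * n] ((Qx d m r w B M Y)^[K] (V M θ)) y
          ≤ (Qx d m r w B M Y)^[K * n] (fun y => 1 / 2 * V M θ y) y := Qi_mono hw0 _ hblock y
        _ = 1 / 2 * (Qx d m r w B M Y)^[K * n] (V M θ) y := Qi_smul _ _ _ _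
        _ ≤ 1 / 2 * ((1 / 2) ^ n * V M θ y) := by
            exact mul_le_mul_of_nonneg_left (ih y) (by norm_num)
        _ = _ := by ring
  -- division with remainder
  obtain ⟨n, s, hs, rfl⟩ : ∃ n s, s < K ∧ L = s + K * n :=
    ⟨L / K, L % K, Nat.mod_lt _ (by omega), (Nat.mod_add_div L K).symm⟩
  have h1 : (Qx d m r w B M Y)^[s + K * n] (V M θ) x ≤ (1 / 2) ^ n * (C0 * V M θ x) := by
    calc (Qx d m r w B M Y)^[s + K * n] (V M θ) x
        = (Qx d m r w B M Y)^[s] ((Qx d m r w B M Y)^[K * n] (V M θ)) x := by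
          rw [Function.iterate_add_apply]
      _ ≤ (Qx d m r w B M Y)^[s] (fun y => (1 / 2) ^ n * V M θ y) x := Qi_mono hw0 _ (hblocks n) x
      _ = (1 / 2) ^ n * (Qx d m r w B M Y)^[s] (V M θ) x := Qi_smul _ _ _ _
      _ ≤ _ := by
          refine mul_le_mul_of_nonneg_left ?_ (by positivity)
          exact (hstep s (by omega) x).trans
            (mul_le_mul_of_nonneg_right (hC0g s (by omega)) (hVn x))
  have h3 : (1 / 2 : ℝ) ^ n ≤ 2 * lam ^ (s + K * n) := by
    have h4 : lam ^ K ≤ lam ^ s := pow_le_pow_of_le_one hlam0.le hlam1.le hs.le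
    rw [hlamK] at h4
    rw [pow_add, pow_mul, hlamK]
    have h5 : (0 : ℝ) < (1 / 2) ^ n := by positivity
    nlinarith
  calc (Qx d m r w B M Y)^[s + K * n] (V M θ) x
      ≤ (1 / 2) ^ n * (C0 * V M θ x) := h1
    _ ≤ (2 * lam ^ (s + K * n)) * (C0 * V M θ x) :=
        mul_le_mul_of_nonneg_right h3 (mul_nonneg hC0pos.le (hVn x))
    _ = _ := by ring

end Pool.Agent.U851.DZ
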